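import Mathlib
import Pool.Agent.H79.TD.Stm
import Pool.Agent.H22.TF.Mdt
import Pool.Agent.H64.TF.CFS

/-!
# Project TD, module BEZ
-/

set_option autoImplicit false

open MvPolynomial Module Pool.Agent.H77.TF

namespace Pool.Agent.H22.TD

open Pool.Agent.H79.TD

theorem two_choose (n : ℕ) : 2 * (n + 2).choose 2 = (n + 2) * (n + 1) := by
  induction n with
  | zero => rfl
  | succ n ih =>
    have h1 : (n + 1 + 2).choose 2 = (n + 2).choose 1 + (n + 2).choose 2 := rfl
    rw [h1, Nat.choose_one_right, mul_add, ih]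
    ring

theorem choose_id (u v t : ℕ) : (u + v + t + 2).choose 2 + (t + 2).choose 2 =
    (v + t + 2).choose 2 + (u + t + 2).choose 2 + u * v := by
  have h1 := two_choose (u + v + t)
  have h2 := two_choose t
  have h3 := two_choose (v + t)
  have h4 := two_choose (u + t)
  have h5 : 2 * ((u + v + t + 2).choose 2 + (t + 2).choose 2) =
      2 * ((v + t + 2).choose 2 + (u + t + 2).choose 2 + u * v) := by
    rw [mul_add, mul_add, mul_add, h1, h2, h3, h4]
    ring
  omega

theorem eval_lin {K : Type} [Field K] {l : ℕ} (a x : Fin l → K) :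
    eval x (lin a) = ∑ i, a i * x i := by
  unfold lin
  rw [map_sum]
  exact Finset.sum_congr rfl fun i _ => by rw [map_mul, eval_C, eval_X]

/-- a linear form which separates two points -/
theorem exists_sep {K : Type} [Field K] {l : ℕ} (r s : Fin l → K) (hs : s ≠ 0)
    (h : ∀ c : K, r ≠ c • s) : ∃ a : Fin l → K, ∑ i, a i * s i = 0 ∧ ∑ i, a i * r i ≠ 0 := by
  classical
  obtain ⟨k, hk⟩ : ∃ k, s k ≠ 0 := Function.ne_iff.1 hs
  have hsum : ∀ (j : Fin l) (x : Fin l → K),
      ∑ i, (s k • Pi.single j (1 : K) - s j • Pi.single k (1 : K) : Fin l → K) i * x i =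
        s k * x j - s j * x k := by
    intro j x
    simp only [Pi.sub_apply, Pi.smul_apply, smul_eq_mul, sub_mul, Finset.sum_sub_distrib,
      mul_assoc, Pi.single_apply, ite_mul, one_mul, zero_mul, mul_ite, mul_zero,
      Finset.sum_ite_eq', Finset.mem_univ, if_true]
  by_contra hcon
  push Not at hcon
  refine h (r k * (s k)⁻¹) (funext fun j => ?_)
  have h1 := hcon (s k • Pi.single j (1 : K) - s j • Pi.single k (1 : K)) (by
    rw [hsum]
    ring)
  rw [hsum] at h1
  rw [Pi.smul_apply, smul_eq_mul]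
  field_simp
  linear_combination h1

/-- the elements of the ideal vanish at the points -/
theorem van_eval {K : Type} [Field K] {ν : Type} {A : ν → Fin 3 → K}
    {f : MvPolynomial (Fin 3) K} (hf : f ∈ van A) {x : Fin 3 → K} (hx : x ∈ Pts A) :
    eval x f = 0 := by
  have h1 : van A ≤ RingHom.ker (eval x) := by
    unfold van
    rw [Ideal.span_le]
    intro f hf
    exact hf.2 x hx
  exact h1 hf

theorem minor_mem {K : Type} [Field K] [Fintype K] {ν : Type} (A : ν → Fin 3 → K) (s t : Fin 3) :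
    X s * X t ^ Fintype.card K - X t * X s ^ Fintype.card K ∈ van A := by
  refine Ideal.subset_span ⟨⟨1 + Fintype.card K, ?_⟩, fun x _ => ?_⟩
  · refine (homogeneousSubmodule (Fin 3) K _).sub_mem ?_ ?_
    · exact (isHomogeneous_X K s).mul (isHomogeneous_X_pow t _)
    · exact (isHomogeneous_X K t).mul (isHomogeneous_X_pow s _)
  · simp only [map_sub, map_mul, map_pow, eval_X, FiniteField.pow_card]
    ring

/-- the generators of the ideal are relatively prime -/
theorem rel_prime (hGC3 : S_GC3) {K : Type} [Field K] [Fintype K] {ν : Type} {A : ν → Fin 3 → K}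
    {f g : MvPolynomial (Fin 3) K} (h : van A = Ideal.span {f, g}) : IsRelPrime f g := by
  intro p hf hg
  have h1 : ∀ y ∈ van A, p ∣ y := by
    intro y hy
    rw [h, Ideal.mem_span_pair] at hy
    obtain ⟨a, b, rfl⟩ := hy
    exact dvd_add (hf.mul_left a) (hg.mul_left b)
  exact hGC3 K p (h1 _ (minor_mem A 0 1)) (h1 _ (minor_mem A 0 2)) (h1 _ (minor_mem A 1 2))

theorem ne_zero_of (hGC3 : S_GC3) {K : Type} [Field K] [Fintype K] {ν : Type}
    {A : ν → Fin 3 → K} {f g : MvPolynomial (Fin 3) K} (hP : (Pts A).Nonempty)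
    (h : van A = Ideal.span {f, g}) : f ≠ 0 := by
  rintro rfl
  obtain ⟨x, hx⟩ := hP
  have h1 := rel_prime hGC3 h
  have h2 : IsUnit g := h1 (dvd_zero g) dvd_rfl
  have h3 : g ∈ van A := by
    rw [h]
    exact Ideal.subset_span (Set.mem_insert_of_mem _ rfl)
  exact (h2.map (eval x)).ne_zero (van_eval h3 hx)

section

variable {K : Type} [Field K]

/-- the evaluation of forms -/
noncomputable def ev (R : Finset (Fin 3 → K)) (e : ℕ) :
    homogeneousSubmodule (Fin 3) K e →ₗ[K] (R → K) where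
  toFun f := fun r => eval r.1 f.1
  map_add' f g := by
    funext r
    simp
  map_smul' c f := by
    funext r
    simp

theorem ev_surj {ν : Type} [Nonempty ν] {A : ν → Fin 3 → K} {R : Finset (Fin 3 → K)}
    (hR : IsRep A R) (e : ℕ) (he : R.card ≤ e) : Function.Surjective (ev R e) := by
  classical
  obtain ⟨i⟩ : Nonempty ν := inferInstance
  have hne : ∀ r ∈ R, r ≠ 0 := by
    rintro r hr rfl
    have h1 := hR.1 _ hr i
    simp at h1
  have hF : ∀ r : R, ∃ F : homogeneousSubmodule (Fin 3) K e, eval r.1 F.1 ≠ 0 ∧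
      ∀ s : R, s ≠ r → eval s.1 F.1 = 0 := by
    intro r
    have h1 : ∀ s : Fin 3 → K, ∃ a : Fin 3 → K, s ∈ R → s ≠ r.1 →
        ∑ i, a i * s i = 0 ∧ ∑ i, a i * r.1 i ≠ 0 := by
      intro s
      by_cases hs : s ∈ R ∧ s ≠ r.1
      · obtain ⟨a, ha⟩ := exists_sep r.1 s (hne s hs.1) fun c hc =>
          hs.2 (hR.2.2 r.1 r.2 s hs.1 c hc).symm
        exact ⟨a, fun _ _ => ha⟩
      · exact ⟨0, fun h2 h3 => absurd ⟨h2, h3⟩ hs⟩
    choose a ha using h1
    have hcard : (R.erase r.1).card + 1 = R.card := Finset.card_erase_add_one r.2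
    refine ⟨⟨(∏ s ∈ R.erase r.1, lin (a s)) * lin (A i) ^ (e - (R.erase r.1).card), ?_⟩, ?_, ?_⟩
    · have h2 : (∏ s ∈ R.erase r.1, lin (a s)).IsHomogeneous (∑ _s ∈ R.erase r.1, 1) :=
        IsHomogeneous.prod _ _ _ fun s _ => H22.TF.lin_hom _
      rw [Finset.sum_const, smul_eq_mul, mul_one] at h2
      have h3 := h2.mul ((H22.TF.lin_hom (A i)).pow (e - (R.erase r.1).card))
      rw [one_mul, show (R.erase r.1).card + (e - (R.erase r.1).card) = e by omega] at h3
      exact h3
    · show eval r.1 ((∏ s ∈ R.erase r.1, lin (a s)) * lin (A i) ^ (e - (R.erase r.1).card)) ≠ 0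
      rw [map_mul, map_prod, map_pow, eval_lin]
      refine mul_ne_zero (Finset.prod_ne_zero_iff.2 fun s hs => ?_) (pow_ne_zero _ (hR.1 _ r.2 i))
      rw [eval_lin]
      exact (ha s (Finset.mem_of_mem_erase hs) (Finset.ne_of_mem_erase hs)).2
    · intro s hs
      show eval s.1 ((∏ s ∈ R.erase r.1, lin (a s)) * lin (A i) ^ (e - (R.erase r.1).card)) = 0
      have hs' : s.1 ≠ r.1 := fun h => hs (Subtype.ext h)
      rw [map_mul, map_prod, Finset.prod_eq_zero (Finset.mem_erase.2 ⟨hs', s.2⟩), zero_mul]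
      rw [eval_lin]
      exact (ha s.1 s.2 hs').1
  choose F hF1 hF2 using hF
  intro y
  refine ⟨∑ r : R, (y r * (eval r.1 (F r).1)⁻¹) • F r, ?_⟩
  rw [map_sum]
  funext s
  rw [Finset.sum_apply, Finset.sum_eq_single s]
  · rw [map_smul, Pi.smul_apply, smul_eq_mul]
    show y s * (eval s.1 (F s).1)⁻¹ * eval s.1 (F s).1 = y s
    rw [mul_assoc, inv_mul_cancel₀ (hF1 s), mul_one]
  · intro r _ hr
    rw [map_smul, Pi.smul_apply, smul_eq_mul]
    show y r * (eval r.1 (F r).1)⁻¹ * eval s.1 (F r).1 = 0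
    rw [hF2 r s hr.symm, mul_zero]
  · exact fun h => absurd (Finset.mem_univ _) h

/-- `(a, b) ↦ a f + b g` -/
noncomputable def Ph (f g : MvPolynomial (Fin 3) K) (u v t : ℕ) (hf : f.IsHomogeneous u)
    (hg : g.IsHomogeneous v) :
    (homogeneousSubmodule (Fin 3) K (v + t) × homogeneousSubmodule (Fin 3) K (u + t)) →ₗ[K]
      homogeneousSubmodule (Fin 3) K (u + v + t) where
  toFun p := ⟨p.1.1 * f + p.2.1 * g, by
    have h1 := IsHomogeneous.mul p.1.2 hf
    have h2 := IsHomogeneous.mul p.2.2 hg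
    rw [show v + t + u = u + v + t by ring] at h1
    rw [show u + t + v = u + v + t by ring] at h2
    exact h1.add h2⟩
  map_add' p p' := by
    ext1
    simp only [Prod.fst_add, Prod.snd_add, Submodule.coe_add]
    ring
  map_smul' c p := by
    ext1
    simp only [Prod.smul_fst, Prod.smul_snd, Submodule.coe_smul, RingHom.id_apply, smul_add,
      smul_mul_assoc]

/-- `c ↦ (c g, - c f)` -/
noncomputable def Ps (f g : MvPolynomial (Fin 3) K) (u v t : ℕ) (hf : f.IsHomogeneous u)
    (hg : g.IsHomogeneous v) :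
    homogeneousSubmodule (Fin 3) K t →ₗ[K]
    (homogeneousSubmodule (Fin 3) K (v + t) × homogeneousSubmodule (Fin 3) K (u + t)) where
  toFun c := (⟨c.1 * g, by
    have h1 := IsHomogeneous.mul c.2 hg
    rwa [add_comm t v] at h1⟩, ⟨-(c.1 * f), by
    have h1 := IsHomogeneous.mul c.2 hf
    rw [add_comm t u] at h1
    exact (homogeneousSubmodule (Fin 3) K _).neg_mem h1⟩)
  map_add' p p' := by
    ext1 <;> ext1
    · simp only [Prod.fst_add, Submodule.coe_add]
      ring
    · simp only [Prod.snd_add, Submodule.coe_add]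
      ring
  map_smul' c p := by
    ext1 <;> ext1
    · simp only [Prod.smul_fst, Submodule.coe_smul, RingHom.id_apply, smul_mul_assoc]
    · simp only [Prod.smul_snd, Submodule.coe_smul, RingHom.id_apply, smul_mul_assoc, smul_neg]

theorem ker_Ph {f g : MvPolynomial (Fin 3) K} {u v t : ℕ} (hf : f.IsHomogeneous u)
    (hg : g.IsHomogeneous v) (hf0 : f ≠ 0) (hrel : IsRelPrime f g) :
    LinearMap.ker (Ph f g u v t hf hg) ≤ LinearMap.range (Ps f g u v t hf hg) := by
  rintro ⟨a, b⟩ hab
  have h1 : a.1 * f + b.1 * g = 0 := congrArg Subtype.val (LinearMap.mem_ker.1 hab)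
  have h2 : f ∣ g * b.1 := ⟨-a.1, by linear_combination h1⟩
  obtain ⟨c, hc⟩ := hrel.dvd_of_dvd_mul_left h2
  have h3 : a.1 = -(c * g) := by
    have h4 : f * a.1 = f * -(c * g) := by
      rw [hc] at h1
      linear_combination h1
    exact mul_left_cancel₀ hf0 h4
  have h5 : c.IsHomogeneous t := by
    have h6 : homogeneousComponent (u + t) (c * f) = c * f := by
      rw [homogeneousComponent_of_mem (n := u + t), if_pos rfl]
      rw [mul_comm, ← hc]
      exact b.2
    rw [H64.TF.comp_mul c f hf, if_pos (Nat.le_add_right u t), Nat.add_sub_cancel_left] at h6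
    have h7 := mul_right_cancel₀ hf0 h6
    rw [← h7]
    exact homogeneousComponent_isHomogeneous _ _
  refine ⟨⟨-c, (homogeneousSubmodule (Fin 3) K _).neg_mem h5⟩, ?_⟩
  ext1 <;> ext1
  · show -c * g = a.1
    rw [h3]
    ring
  · show -(-c * f) = b.1
    rw [hc]
    ring

end

/-- **Module BEZ.** -/
theorem t_BEZ (hDIM : S_DIM) (hREP : S_REP) (hGC3 : S_GC3) : S_BEZ := by
  intro K _ _ ν _ _ A u v f g hP hf hg hvan
  obtain ⟨R, hRc, hR⟩ := hREP K ν A
  rw [← hRc]
  have hrel := rel_prime hGC3 hvan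
  have hf0 := ne_zero_of hGC3 hP hvan
  obtain ⟨t, ht⟩ : ∃ t, t = R.card := ⟨_, rfl⟩
  have hfin : ∀ e, Module.Finite K (homogeneousSubmodule (Fin 3) K e) := fun e => (hDIM K e).1
  have hdim : ∀ e, finrank K (homogeneousSubmodule (Fin 3) K e) = (e + 2).choose 2 :=
    fun e => (hDIM K e).2
  have hs := ev_surj hR (u + v + t) (by omega)
  have h1 := LinearMap.finrank_range_add_finrank_ker (ev R (u + v + t))
  rw [LinearMap.range_eq_top.2 hs, finrank_top, Module.finrank_fintype_fun_eq_card,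
    Fintype.card_coe, hdim] at h1
  have h2 := LinearMap.finrank_range_add_finrank_ker (Ph f g u v t hf hg)
  rw [Module.finrank_prod, hdim, hdim] at h2
  have h3 : finrank K (LinearMap.ker (Ph f g u v t hf hg)) ≤ (t + 2).choose 2 := by
    refine (Submodule.finrank_mono (ker_Ph hf hg hf0 hrel)).trans ?_
    rw [← hdim t]
    exact LinearMap.finrank_range_le _
  have h4 : finrank K (LinearMap.range (Ph f g u v t hf hg)) ≤
      finrank K (LinearMap.ker (ev R (u + v + t))) := by
    refine Submodule.finrank_mono ?_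
    rintro _ ⟨p, rfl⟩
    rw [LinearMap.mem_ker]
    funext r
    show eval r.1 (p.1.1 * f + p.2.1 * g) = 0
    have h5 : p.1.1 * f + p.2.1 * g ∈ van A := by
      rw [hvan, Ideal.mem_span_pair]
      exact ⟨_, _, rfl⟩
    exact van_eval h5 (hR.1 _ r.2)
  have h5 := choose_id u v t
  omega

end Pool.Agent.H22.TD
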