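import Mathlib
import Pool.Agent.H79.TD.Stm6
import Pool.Agent.H22.TD.Bez

/-!
# Project SV, module BZ2
-/

set_option autoImplicit false

open MvPolynomial Module Pool.Agent.H77.TF

namespace Pool.Agent.H22.TD

open Pool.Agent.H79.TD

section

variable {K : Type} [Field K]

/-- the derivative in the direction `t` at `x` -/
noncomputable def dv (t x : Fin 3 → K) (h : MvPolynomial (Fin 3) K) : K :=
  ∑ i, t i * eval x (pderiv i h)

theorem dv_mul (t x : Fin 3 → K) (g h : MvPolynomial (Fin 3) K) :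
    dv t x (g * h) = dv t x g * eval x h + eval x g * dv t x h := by
  unfold dv
  rw [Finset.sum_mul, Finset.mul_sum, ← Finset.sum_add_distrib]
  refine Finset.sum_congr rfl fun i _ => ?_
  rw [pderiv_mul, map_add, map_mul, map_mul]
  ring

theorem dv_add (t x : Fin 3 → K) (g h : MvPolynomial (Fin 3) K) :
    dv t x (g + h) = dv t x g + dv t x h := by
  unfold dv
  rw [← Finset.sum_add_distrib]
  refine Finset.sum_congr rfl fun i _ => ?_
  rw [map_add, map_add]
  ring

theorem dv_smul (t x : Fin 3 → K) (c : K) (h : MvPolynomial (Fin 3) K) :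
    dv t x (c • h) = c * dv t x h := by
  unfold dv
  rw [Finset.mul_sum]
  refine Finset.sum_congr rfl fun i _ => ?_
  rw [Derivation.map_smul, smul_eval]
  ring

theorem dv_lin (t x a : Fin 3 → K) : dv t x (lin a) = ∑ i, a i * t i := by
  unfold dv
  refine Finset.sum_congr rfl fun j _ => ?_
  have h : pderiv j (lin a) = C (a j) := by
    unfold lin
    rw [map_sum, Finset.sum_eq_single j]
    · simp
    · intro i _ hij
      rw [pderiv_C_mul, pderiv_X_of_ne hij, mul_zero]
    · simp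
  rw [h, eval_C, mul_comm]

/-- the evaluation of forms with the derivative -/
noncomputable def ev2 (R : Finset (Fin 3 → K)) (t : (Fin 3 → K) → Fin 3 → K) (e : ℕ) :
    homogeneousSubmodule (Fin 3) K e →ₗ[K] (R → K × K) where
  toFun f := fun r => (eval r.1 f.1, dv (t r.1) r.1 f.1)
  map_add' f g := by
    funext r
    simp [dv_add]
  map_smul' c f := by
    funext r
    simp [dv_smul]

theorem ev2_surj {R : Finset (Fin 3 → K)} {t : (Fin 3 → K) → Fin 3 → K} (hne : ∀ x ∈ R, x ≠ 0)
    (hR : ∀ x ∈ R, ∀ y ∈ R, ∀ c : K, x = c • y → x = y)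
    (ht : ∀ x ∈ R, ∀ c : K, t x ≠ c • x) (e : ℕ) (he : 2 * R.card ≤ e) :
    Function.Surjective (ev2 R t e) := by
  classical
  have hF : ∀ (r : R) (y : K × K), ∃ F : homogeneousSubmodule (Fin 3) K e,
      ev2 R t e F = Pi.single r y := by
    intro r y
    have h1 : ∀ s : Fin 3 → K, ∃ a : Fin 3 → K, s ∈ R → s ≠ r.1 →
        ∑ i, a i * s i = 0 ∧ ∑ i, a i * r.1 i ≠ 0 := by
      intro s
      by_cases hs : s ∈ R ∧ s ≠ r.1
      · obtain ⟨a, ha⟩ := exists_sep r.1 s (hne s hs.1) fun c hc =>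
          hs.2 (hR r.1 r.2 s hs.1 c hc).symm
        exact ⟨a, fun _ _ => ha⟩
      · exact ⟨0, fun h2 h3 => absurd ⟨h2, h3⟩ hs⟩
    choose a ha using h1
    have hcard : (R.erase r.1).card + 1 = R.card := Finset.card_erase_add_one r.2
    obtain ⟨m0, hm0⟩ : ∃ m0 : Fin 3 → K, ∑ i, m0 i * r.1 i ≠ 0 := by
      obtain ⟨k, hk⟩ : ∃ k, r.1 k ≠ 0 := Function.ne_iff.1 (hne r.1 r.2)
      exact ⟨Pi.single k 1, by simpa [Pi.single_apply] using hk⟩
    obtain ⟨m1, hm1, hm1'⟩ := exists_sep (t r.1) r.1 (hne r.1 r.2) (ht r.1 r.2)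
    set k := e - 1 - 2 * (R.erase r.1).card with hk
    set P : MvPolynomial (Fin 3) K := (∏ s ∈ R.erase r.1, lin (a s) ^ 2) * lin m0 ^ k with hP
    have hPh : ∀ m : Fin 3 → K, (P * lin m).IsHomogeneous e := by
      intro m
      have h2 : (∏ s ∈ R.erase r.1, lin (a s) ^ 2).IsHomogeneous (∑ _s ∈ R.erase r.1, 1 * 2) :=
        IsHomogeneous.prod _ _ _ fun s _ => (H22.TF.lin_hom _).pow 2
      rw [Finset.sum_const, smul_eq_mul] at h2
      have h3 := (h2.mul ((H22.TF.lin_hom m0).pow k)).mul (H22.TF.lin_hom m)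
      rwa [show (R.erase r.1).card * (1 * 2) + 1 * k + 1 = e by omega] at h3
    have hPr : eval r.1 P ≠ 0 := by
      rw [hP, map_mul, map_prod, map_pow, eval_lin]
      refine mul_ne_zero (Finset.prod_ne_zero_iff.2 fun s hs => ?_) (pow_ne_zero _ hm0)
      rw [map_pow, eval_lin]
      exact pow_ne_zero _ (ha s (Finset.mem_of_mem_erase hs) (Finset.ne_of_mem_erase hs)).2
    have hPs : ∀ s : R, s ≠ r → eval s.1 P = 0 ∧ dv (t s.1) s.1 P = 0 := by
      intro s hs
      have hs' : s.1 ≠ r.1 := fun h => hs (Subtype.ext h)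
      have hmem : s.1 ∈ R.erase r.1 := Finset.mem_erase.2 ⟨hs', s.2⟩
      have h2 : eval s.1 (lin (a s.1)) = 0 := by
        rw [eval_lin]
        exact (ha s.1 s.2 hs').1
      have h3 : P = lin (a s.1) * (lin (a s.1) *
          ((∏ s ∈ (R.erase r.1).erase s.1, lin (a s) ^ 2) * lin m0 ^ k)) := by
        rw [hP, ← Finset.mul_prod_erase _ _ hmem]
        ring
      rw [h3]
      constructor
      · rw [map_mul, h2, zero_mul]
      · rw [dv_mul, h2, map_mul, h2]
        ring
    clear_value P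
    set p := eval r.1 P with hp
    set d := dv (t r.1) r.1 P with hd
    set ρ := ∑ i, m0 i * r.1 i with hρ
    set τ := ∑ i, m1 i * t r.1 i with hτ
    set σ := ∑ i, m0 i * t r.1 i with hσ
    set α := y.1 * (p * ρ)⁻¹ with hα
    set β := (y.2 - α * (d * ρ + p * σ)) * (p * τ)⁻¹ with hβ
    refine ⟨α • ⟨P * lin m0, hPh m0⟩ + β • ⟨P * lin m1, hPh m1⟩, ?_⟩
    funext s
    by_cases hs : s = r
    · subst hs
      rw [Pi.single_eq_same]
      show (eval s.1 (α • (P * lin m0) + β • (P * lin m1)),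
        dv (t s.1) s.1 (α • (P * lin m0) + β • (P * lin m1))) = y
      have e1 : eval s.1 (α • (P * lin m0) + β • (P * lin m1)) = y.1 := by
        rw [map_add, smul_eval, smul_eval, map_mul, map_mul, eval_lin, eval_lin, hm1, ← hp, ← hρ,
          mul_zero, mul_zero, add_zero, hα, mul_assoc, inv_mul_cancel₀ (mul_ne_zero hPr hm0), mul_one]
      have e2 : dv (t s.1) s.1 (α • (P * lin m0) + β • (P * lin m1)) = y.2 := by
        rw [dv_add, dv_smul, dv_smul, dv_mul, dv_mul, dv_lin, dv_lin, eval_lin, eval_lin, hm1, ← hp,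
          ← hρ, ← hσ, ← hτ, ← hd, mul_zero, zero_add, hβ, mul_assoc _ _ (p * τ),
          inv_mul_cancel₀ (mul_ne_zero hPr hm1')]
        ring
      exact Prod.ext e1 e2
    · rw [Pi.single_eq_of_ne hs]
      obtain ⟨e1, e2⟩ := hPs s hs
      show (eval s.1 (α • (P * lin m0) + β • (P * lin m1)),
        dv (t s.1) s.1 (α • (P * lin m0) + β • (P * lin m1))) = 0
      refine Prod.ext ?_ ?_
      · show eval s.1 (α • (P * lin m0) + β • (P * lin m1)) = 0
        rw [map_add, smul_eval, smul_eval, map_mul, map_mul, e1]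
        ring
      · show dv (t s.1) s.1 (α • (P * lin m0) + β • (P * lin m1)) = 0
        rw [dv_add, dv_smul, dv_smul, dv_mul, dv_mul, e1, e2]
        ring
  choose F hF using hF
  intro y
  refine ⟨∑ r : R, F r (y r), ?_⟩
  rw [map_sum]
  simp only [hF]
  exact Finset.univ_sum_single y

end

/-- **Module BZ2.** -/
theorem t_BZ2 (hDIM : S_DIM) : S_BZ2 := by
  intro K _ u v f g R hf hg hf0 hg0 hrel hne hR hRt
  classical
  have h0 : ∀ x : Fin 3 → K, ∃ t : Fin 3 → K, x ∈ R → (∀ c : K, t ≠ c • x) ∧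
      ∑ i, t i * eval x (pderiv i f) = 0 ∧ ∑ i, t i * eval x (pderiv i g) = 0 := by
    intro x
    by_cases hx : x ∈ R
    · obtain ⟨_, _, t, ht⟩ := hRt x hx
      exact ⟨t, fun _ => ht⟩
    · exact ⟨0, fun h => absurd h hx⟩
  choose T hT using h0
  obtain ⟨t, ht⟩ : ∃ t, t = 2 * R.card := ⟨_, rfl⟩
  have hfin : ∀ e, Module.Finite K (homogeneousSubmodule (Fin 3) K e) := fun e => (hDIM K e).1
  have hdim : ∀ e, finrank K (homogeneousSubmodule (Fin 3) K e) = (e + 2).choose 2 :=
    fun e => (hDIM K e).2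
  have hs := ev2_surj hne hR (fun x hx => (hT x hx).1) (u + v + t) (by omega)
  have h1 := LinearMap.finrank_range_add_finrank_ker (ev2 R T (u + v + t))
  rw [LinearMap.range_eq_top.2 hs, finrank_top, Module.finrank_pi_fintype, hdim] at h1
  simp only [Module.finrank_prod, Module.finrank_self, Finset.sum_const, Finset.card_univ,
    Fintype.card_coe, smul_eq_mul] at h1
  have h2 := LinearMap.finrank_range_add_finrank_ker (Ph f g u v t hf hg)
  rw [Module.finrank_prod, hdim, hdim] at h2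
  have h3 : finrank K (LinearMap.ker (Ph f g u v t hf hg)) ≤ (t + 2).choose 2 := by
    refine (Submodule.finrank_mono (ker_Ph hf hg hf0 hrel)).trans ?_
    rw [← hdim t]
    exact LinearMap.finrank_range_le _
  have h4 : finrank K (LinearMap.range (Ph f g u v t hf hg)) ≤
      finrank K (LinearMap.ker (ev2 R T (u + v + t))) := by
    refine Submodule.finrank_mono ?_
    rintro _ ⟨p, rfl⟩
    rw [LinearMap.mem_ker]
    funext r
    show (eval r.1 (p.1.1 * f + p.2.1 * g), dv (T r.1) r.1 (p.1.1 * f + p.2.1 * g)) = 0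
    obtain ⟨e1, e2, _⟩ := hRt r.1 r.2
    obtain ⟨_, e3, e4⟩ := hT r.1 r.2
    refine Prod.ext ?_ ?_
    · show eval r.1 (p.1.1 * f + p.2.1 * g) = 0
      rw [map_add, map_mul, map_mul, e1, e2]
      ring
    · show dv (T r.1) r.1 (p.1.1 * f + p.2.1 * g) = 0
      have e3' : dv (T r.1) r.1 f = 0 := e3
      have e4' : dv (T r.1) r.1 g = 0 := e4
      rw [dv_add, dv_mul, dv_mul, e1, e2, e3', e4']
      ring
  have h5 := choose_id u v t
  omega

end Pool.Agent.H22.TD
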